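import Pool.Agent.Helper57.SL.Stmts
import Pool.Agent.Helper68.SI.DW

/-! Row DWS of sheet SN: bounds for the logarithmic derivative of the Euler product. -/

set_option autoImplicit false

namespace Pool.Agent.Helper37.SL

open MeasureTheory Set Filter Topology
open Pool.Agent.Helper57.QZ (Pr tor circ aa Zy Wy Sy Vy Ky pt lin)
open Pool.Agent.Helper57.SL
open Pool.Agent.Helper68.SI (dw_re dw_nrm dw_sum)

/-- the terms -/
noncomputable def hh (σ θ t : ℝ) (p : ℕ) : ℝ :=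
  Real.log (p : ℝ) * (p : ℝ) ^ (-σ) * Real.cos (θ + t * Real.log (p : ℝ))

theorem dws_low (y Z : ℕ) (hZ : Z ≤ y) (g : ℕ → ℝ) :
    ∑ p : Pr y, (if (p : ℕ) ≤ Z then g (p : ℕ) else 0) =
      ∑ p ∈ Nat.primesBelow (Z + 1), g p := by
  rw [dw_sum y (fun p => if p ≤ Z then g p else 0)]
  have hsub : Nat.primesBelow (Z + 1) ⊆ Nat.primesBelow (y + 1) := by
    intro p hp
    rw [Nat.mem_primesBelow] at hp ⊢
    exact ⟨by omega, hp.2⟩
  rw [← Finset.sum_subset hsub]
  · refine Finset.sum_congr rfl fun p hp => ?_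
    rw [Nat.mem_primesBelow] at hp
    rw [if_pos (by omega)]
  · intro p hp hp2
    rw [Nat.mem_primesBelow] at hp hp2
    rw [if_neg]
    intro hcon
    exact hp2 ⟨by omega, hp.2⟩

theorem dws_split (y Z : ℕ) (hZ : Z ≤ y) (g : ℕ → ℝ) :
    ∑ p : Pr y, g (p : ℕ) = ∑ p : Pr y, (if Z < (p : ℕ) then g (p : ℕ) else 0) +
      ∑ p ∈ Nat.primesBelow (Z + 1), g p := by
  rw [← dws_low y Z hZ g, ← Finset.sum_add_distrib]
  refine Finset.sum_congr rfl fun p _ => ?_
  by_cases h : Z < (p : ℕ)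
  · rw [if_pos h, if_neg (by omega), add_zero]
  · rw [if_neg h, if_pos (by omega), zero_add]

theorem dws_V (y Z : ℕ) (hZ : Z ≤ y) (σ θ t e : ℝ) (ht : ‖ts 1 σ y Z (lin y t)‖ ≤ e) :
    |(Complex.exp (-((θ : ℂ) * Complex.I)) * Vy y σ (lin y t)).re -
      ∑ p ∈ Nat.primesBelow (Z + 1), hh σ θ t p| ≤ e := by
  have e1 : (Complex.exp (-((θ : ℂ) * Complex.I)) * Vy y σ (lin y t)).re =
      ∑ p : Pr y, hh σ θ t (p : ℕ) := by
    unfold Vy
    rw [Finset.mul_sum, Complex.re_sum]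
    refine Finset.sum_congr rfl fun p _ => ?_
    rw [dw_re]
    unfold hh aa lin
    ring
  have e2 : (Complex.exp (-((θ : ℂ) * Complex.I)) * ts 1 σ y Z (lin y t)).re =
      ∑ p : Pr y, (if Z < (p : ℕ) then hh σ θ t (p : ℕ) else 0) := by
    unfold ts
    rw [Finset.mul_sum, Complex.re_sum]
    refine Finset.sum_congr rfl fun p _ => ?_
    split_ifs with hp
    · rw [dw_re, pow_one]
      rfl
    · rw [mul_zero, Complex.zero_re]
  have e3 : |(Complex.exp (-((θ : ℂ) * Complex.I)) * ts 1 σ y Z (lin y t)).re| ≤ e := by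
    refine (Complex.abs_re_le_norm _).trans ?_
    rw [dw_nrm]
    exact ht
  rw [e1, dws_split y Z hZ (hh σ θ t), ← e2, add_sub_cancel_right]
  exact e3

theorem dws_norm (w : ℂ) : (Complex.exp (-((w.arg : ℂ) * Complex.I)) * w).re = ‖w‖ := by
  have h1 := Complex.norm_mul_exp_arg_mul_I w
  have h : Complex.exp (-((w.arg : ℂ) * Complex.I)) * w = (‖w‖ : ℂ) := by
    calc Complex.exp (-((w.arg : ℂ) * Complex.I)) * w =
        Complex.exp (-((w.arg : ℂ) * Complex.I)) *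
          ((‖w‖ : ℂ) * Complex.exp ((w.arg : ℂ) * Complex.I)) := by rw [h1]
      _ = (‖w‖ : ℂ) * (Complex.exp (-((w.arg : ℂ) * Complex.I)) *
          Complex.exp ((w.arg : ℂ) * Complex.I)) := by ring
      _ = (‖w‖ : ℂ) := by rw [← Complex.exp_add, neg_add_cancel, Complex.exp_zero, mul_one]
  rw [h, Complex.ofReal_re]

theorem hh_le (σ θ t : ℝ) (p : ℕ) : hh σ θ t p ≤ Real.log (p : ℝ) * (p : ℝ) ^ (-σ) := by
  unfold hh
  exact mul_le_of_le_one_right (mul_nonneg (Real.log_natCast_nonneg p)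
    (Real.rpow_nonneg (Nat.cast_nonneg p) _)) (Real.cos_le_one _)

theorem st_DWS (h1 : Pool.Agent.Helper57.QZ.ST_DT2) : ST_DWS := by
  obtain ⟨C0, hC0⟩ := h1 (1 / 4) (by norm_num)
  refine ⟨max C0 1, lt_of_lt_of_le one_pos (le_max_right _ _), ?_⟩
  intro y z Z t σ e hσ hz hzZ hZy hts
  have hC := hC0 y σ (lin y t) (by linarith [hσ.1])
  have hm := le_max_left C0 1
  have hV := fun θ => dws_V y Z hZy σ θ t e hts
  refine ⟨?_, ?_, ?_⟩
  · have g1 : ‖Wy y σ (lin y t)‖ ≤ ‖Wy y σ (lin y t) + Vy y σ (lin y t)‖ +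
        ‖Vy y σ (lin y t)‖ := by
      have := norm_sub_le (Wy y σ (lin y t) + Vy y σ (lin y t)) (Vy y σ (lin y t))
      rwa [add_sub_cancel_right] at this
    have g2 := (abs_le.1 (hV (Vy y σ (lin y t)).arg)).2
    rw [dws_norm] at g2
    have g3 : ∑ p ∈ Nat.primesBelow (Z + 1), hh σ (Vy y σ (lin y t)).arg t p ≤ S2 σ Z :=
      Finset.sum_le_sum fun p _ => hh_le _ _ _ _
    linarith
  · have g1 : ‖Vy y σ (lin y t)‖ ≤ ‖Wy y σ (lin y t) + Vy y σ (lin y t)‖ +
        ‖Wy y σ (lin y t)‖ := by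
      have := norm_sub_le (Wy y σ (lin y t) + Vy y σ (lin y t)) (Wy y σ (lin y t))
      rwa [add_sub_cancel_left] at this
    have g2 := (abs_le.1 (hV 0)).1
    have g3 : (Complex.exp (-(((0 : ℝ) : ℂ) * Complex.I)) * Vy y σ (lin y t)).re ≤
        ‖Vy y σ (lin y t)‖ := by
      refine (Complex.re_le_norm _).trans ?_
      rw [dw_nrm]
    have g4 : F1 σ y Z (lin y t) = ∑ p ∈ Nat.primesBelow (Z + 1),
        (p : ℝ) ^ (-σ) * (1 - Real.cos (t * Real.log (p : ℝ))) :=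
      dws_low y Z hZy fun p => (p : ℝ) ^ (-σ) * (1 - Real.cos (t * Real.log (p : ℝ)))
    have g5 : S2 σ Z - Real.log Z * F1 σ y Z (lin y t) ≤
        ∑ p ∈ Nat.primesBelow (Z + 1), hh σ 0 t p := by
      rw [g4, Finset.mul_sum]
      unfold S2
      rw [← Finset.sum_sub_distrib]
      refine Finset.sum_le_sum fun p hp => ?_
      rw [Nat.mem_primesBelow] at hp
      have hp0 : (0 : ℝ) < p := by exact_mod_cast hp.2.pos
      have a1 : Real.log (p : ℝ) ≤ Real.log Z :=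
        Real.log_le_log hp0 (by exact_mod_cast (by omega : p ≤ Z))
      have a2 : 0 ≤ (p : ℝ) ^ (-σ) * (1 - Real.cos (t * Real.log (p : ℝ))) :=
        mul_nonneg (by positivity) (by linarith [Real.cos_le_one (t * Real.log (p : ℝ))])
      have a3 := mul_le_mul_of_nonneg_right a1 a2
      unfold hh
      rw [zero_add]
      linarith
    linarith
  · intro θ
    have g1 : (Complex.exp (-((θ : ℂ) * Complex.I)) * Wy y σ (lin y t)).re =
        (Complex.exp (-((θ : ℂ) * Complex.I)) * (Wy y σ (lin y t) + Vy y σ (lin y t))).re -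
        (Complex.exp (-((θ : ℂ) * Complex.I)) * Vy y σ (lin y t)).re := by
      rw [← Complex.sub_re, ← mul_sub, add_sub_cancel_right]
    have g2 : -C0 ≤
        (Complex.exp (-((θ : ℂ) * Complex.I)) * (Wy y σ (lin y t) + Vy y σ (lin y t))).re := by
      have a1 := (abs_le.1 (Complex.abs_re_le_norm
        (Complex.exp (-((θ : ℂ) * Complex.I)) * (Wy y σ (lin y t) + Vy y σ (lin y t))))).1
      rw [dw_nrm] at a1
      linarith
    have g3 := (abs_le.1 (hV θ)).2
    have hsub : Nat.primesBelow (z + 1) ⊆ Nat.primesBelow (Z + 1) := by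
      intro p hp
      rw [Nat.mem_primesBelow] at hp ⊢
      exact ⟨by omega, hp.2⟩
    have g4 := Finset.sum_sdiff (f := fun p : ℕ => hh σ θ t p) hsub
    have g5 := Finset.sum_sdiff (f := fun p : ℕ => Real.log (p : ℝ) * (p : ℝ) ^ (-σ)) hsub
    have g6 : ∑ p ∈ Nat.primesBelow (Z + 1) \ Nat.primesBelow (z + 1), hh σ θ t p ≤
        ∑ p ∈ Nat.primesBelow (Z + 1) \ Nat.primesBelow (z + 1),
          Real.log (p : ℝ) * (p : ℝ) ^ (-σ) := Finset.sum_le_sum fun p _ => hh_le _ _ _ _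
    have g7 : S2 σ z - E2 σ z (θ + Real.pi) t = -∑ p ∈ Nat.primesBelow (z + 1), hh σ θ t p := by
      unfold S2 E2
      rw [dw_sum z (fun p => Real.log (p : ℝ) * (p : ℝ) ^ (-σ) *
        (1 - Real.cos (t * Real.log (p : ℝ) + (θ + Real.pi)))), ← Finset.sum_sub_distrib,
        ← Finset.sum_neg_distrib]
      refine Finset.sum_congr rfl fun p _ => ?_
      have e7 : t * Real.log (p : ℝ) + (θ + Real.pi) = (θ + t * Real.log (p : ℝ)) + Real.pi := by
        ring
      unfold hh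
      rw [e7, Real.cos_add_pi]
      ring
    have g8 : S2 σ Z = ∑ p ∈ Nat.primesBelow (Z + 1), Real.log (p : ℝ) * (p : ℝ) ^ (-σ) := rfl
    have g9 : S2 σ z = ∑ p ∈ Nat.primesBelow (z + 1), Real.log (p : ℝ) * (p : ℝ) ^ (-σ) := rfl
    rw [g1, g7]
    rw [g8, g9]
    linarith

end Pool.Agent.Helper37.SL
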